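import Mathlib
import Pool.Agent.KS6_21.NonSolv.Main

/-!
# Projective modules over the group rings of nonsolvable polycyclic-by-finite groups

For EVERY torsion-free polycyclic-by-finite group `Γ` which is not solvable, and for every nonzero
commutative ring `k`, there is a projective `k[Γ]`-module which is not the direct sum of a free
module and a finitely generated module; if `k` is noetherian (a principal ideal domain, say) then
it is not the direct sum of a free module and a left ideal.

Proof. The derived series of a polycyclic-by-finite group becomes stationary, so `Γ` contains an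
infinite finitely generated perfect subgroup `G`. The right ideal of `k[Γ]` generated by the
elements `g - 1`, `g ∈ G`, is generated by products of two of them, and this gives a projective
module `P` which is not finitely generated, all of whose maps to `k[Γ]` have their image in the
augmentation ideal. The group ring `k[Γ]` is noetherian by the theorem of P. Hall, which is proved
in `KS6_21/NonSolv/Noe.lean` for all commutative noetherian coefficient rings.
-/

set_option autoImplicit false

namespace Pool.Agent.Results.MP_164b00_al.NonSolvableGroups

open Pool.Agent.KS6_21.NonSolv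

universe u v w

/-- There is a projective left `k[Γ]`-module `P` which is isomorphic to `F × M` for no free module
`F` and no finitely generated module `M`, and which, if `k` is noetherian, is isomorphic to `F × I`
for no free module `F` and no left ideal `I` of `k[Γ]`. -/
def HasBadProjective (Γ : Type v) [Group Γ] (k : Type u) [CommRing k] : Prop :=
  ∃ (P : Type (max u v)) (_ : AddCommGroup P) (_ : Module (MonoidAlgebra k Γ) P),
    Module.Projective (MonoidAlgebra k Γ) P ∧
    (∀ (F : Type w) [AddCommGroup F] [Module (MonoidAlgebra k Γ) F],
      Module.Free (MonoidAlgebra k Γ) F →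
      ∀ (M : Type (max u v)) [AddCommGroup M] [Module (MonoidAlgebra k Γ) M],
        Module.Finite (MonoidAlgebra k Γ) M → IsEmpty (P ≃ₗ[MonoidAlgebra k Γ] (F × M))) ∧
    (IsNoetherianRing k →
      ∀ (F : Type w) [AddCommGroup F] [Module (MonoidAlgebra k Γ) F],
        Module.Free (MonoidAlgebra k Γ) F →
        ∀ I : Submodule (MonoidAlgebra k Γ) (MonoidAlgebra k Γ),
          IsEmpty (P ≃ₗ[MonoidAlgebra k Γ] (F × I)))

theorem main {Γ : Type v} [Group Γ] (hp : IsPolycyclicByFinite Γ)
    (hinf : ∀ n, Infinite (derivedSeries Γ n)) (k : Type u) [CommRing k] [Nontrivial k] :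
    HasBadProjective.{u, v, w} Γ k := by
  obtain ⟨G, hfg, hGi, hperf⟩ := exists_perfect hp hinf
  obtain ⟨P, i1, i2, hP, h⟩ := exists_proj.{u, v, w} G hfg hperf k
  refine ⟨P, i1, i2, hP, h, fun hk F _ _ hF I => ?_⟩
  have hN : IsNoetherianRing (MonoidAlgebra k Γ) := Poly.pbf_noeth hp
  have hI : Module.Finite (MonoidAlgebra k Γ) I := inferInstance
  exact h F hF I hI

/-- (1) Let `Γ` be a torsion-free polycyclic-by-finite group which is not solvable. For every
nonzero commutative ring `k` there is a projective left `k[Γ]`-module `P` which is isomorphic to
`F × M` for no free module `F` and no finitely generated module `M`; if `k` is noetherian (for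
example a principal ideal domain) then `P` is isomorphic to `F × I` for no free module `F` and no
left ideal `I` of `k[Γ]`, so the property of Q1 fails for all these groups and coefficient rings.
(2) The same holds for all polycyclic-by-finite groups, with torsion or not, all of whose derived
subgroups are infinite.
(3) There are torsion-free polycyclic-by-finite groups which are not solvable. -/
theorem result :
    (∀ (Γ : Type v) [Group Γ], (∀ g : Γ, IsOfFinOrder g → g = 1) → IsPolycyclicByFinite Γ →
      ¬ Group.IsSolvable Γ → ∀ (k : Type u) [CommRing k] [Nontrivial k],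
        HasBadProjective.{u, v, w} Γ k) ∧
    (∀ (Γ : Type v) [Group Γ], IsPolycyclicByFinite Γ → (∀ n, Infinite (derivedSeries Γ n)) →
      ∀ (k : Type u) [CommRing k] [Nontrivial k], HasBadProjective.{u, v, w} Γ k) ∧
    (∃ (Γ : Type) (_ : Group Γ), (∀ g : Γ, IsOfFinOrder g → g = 1) ∧
      IsPolycyclicByFinite Γ ∧ ¬ Group.IsSolvable Γ) := by
  refine ⟨?_, ?_, exists_group⟩
  · intro Γ _ htf hp hns k _ _
    exact main.{u, v, w} hp (infinite_of_not_solvable htf hns) k
  · intro Γ _ hp hinf k _ _
    exact main.{u, v, w} hp hinf k

end Pool.Agent.Results.MP_164b00_al.NonSolvableGroups
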